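import Pool.Agent.N765.HY.LatFin

/-!
# Amalgams over free subgroups: the one-sided hybrid
-/

set_option autoImplicit false

open Matrix Filter Topology

namespace Pool.Agent.J4.H51.OS

open Pool.Agent.N765.HY

variable {n : ℕ}

/-- a loxodromic element of `Θ` whose two fixed null lines have infinite `Θ`-orbits -/
def NonEl (Θ : Subgroup (SU n)) : Prop :=
  ∃ h ∈ Θ, ∃ (v w : Fin (n + 1) → ℂ) (a b : ℂ), v ≠ 0 ∧ w ≠ 0 ∧ form n v v = 0 ∧ form n w w = 0 ∧
    ap h v = a • v ∧ ap h w = b • w ∧ ‖b‖ < ‖a‖ ∧ (Orb Θ v).Infinite ∧ (Orb Θ w).Infinite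

theorem nonEl_of_lox (Θ : Subgroup (SU n))
    (hlox : ∃ h ∈ Θ, ∃ (v : Fin (n + 1) → ℂ) (l : ℂ), v ≠ 0 ∧ ap h v = l • v ∧ ‖l‖ ≠ 1)
    (hne : ∀ v : Fin (n + 1) → ℂ, v ≠ 0 → form n v v = 0 → (Orb Θ v).Infinite) : NonEl Θ := by
  obtain ⟨h, hh, v, l, hv0, hv, hl⟩ := hlox
  obtain ⟨vp, vm, a, b, hp0, hm0, np, nm, hp, hm, hab, -⟩ := eig_pair h v l hv0 hv hl
  exact ⟨h, hh, vp, vm, a, b, hp0, hm0, np, nm, hp, hm, hab, hne vp hp0 np, hne vm hm0 nm⟩

/-- transport along an isometric linear embedding -/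
theorem nonEl_of_map {m : ℕ} (Λ : Subgroup (SU m)) (hΛ : NonEl Λ) (Θ : Subgroup (SU n))
    (J : (Fin (m + 1) → ℂ) →ₗ[ℂ] (Fin (n + 1) → ℂ))
    (hJ : ∀ z w, form n (J z) (J w) = form m z w)
    (hJj : ∀ g ∈ Λ, ∃ g' ∈ Θ, ∀ z, ap g' (J z) = J (ap g z)) : NonEl Θ := by
  have hinj : Function.Injective J := by
    rw [← LinearMap.ker_eq_bot, LinearMap.ker_eq_bot']
    intro z hz
    apply form_nondeg m z
    intro w
    rw [← hJ, hz]
    unfold form
    simp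
  obtain ⟨h, hh, v, w, a, b, hv0, hw0, nv, nw, hv, hw, hab, iv, iw⟩ := hΛ
  have key : ∀ u : Fin (m + 1) → ℂ, (Orb Λ u).Infinite → (Orb Θ (J u)).Infinite := by
    intro u hu
    have h1 : Set.InjOn (fun L : Submodule ℂ (Fin (m + 1) → ℂ) => L.map J) (Orb Λ u) :=
      fun L _ L' _ e => Submodule.map_injective_of_injective hinj e
    refine (hu.image h1).mono ?_
    rintro _ ⟨_, ⟨g, rfl⟩, rfl⟩
    obtain ⟨g', hg', e⟩ := hJj g.1 g.2
    refine ⟨⟨g', hg'⟩, ?_⟩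
    change Ln (ap g' (J u)) = Submodule.map J (Submodule.span ℂ {ap g.1 u})
    rw [e, Submodule.map_span, Set.image_singleton]
  obtain ⟨h', hh', e⟩ := hJj h hh
  refine ⟨h', hh', J v, J w, a, b, fun e => hv0 (hinj (by rw [e, map_zero])),
    fun e => hw0 (hinj (by rw [e, map_zero])), by rw [hJ, nv], by rw [hJ, nw], ?_, ?_, hab,
    key v iv, key w iw⟩
  · rw [e, hv, map_smul]
  · rw [e, hw, map_smul]

/-- Two free bases `u`, `w` with `w i = g i * u i` and `u i ∈ Θ`; the `w i` generate `Γ` together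
with `Δ`. -/
theorem free_gen (Γ Δ Θ : Subgroup (SU n)) (hΔ : Δ ≤ Γ) (hΘ : Θ ≤ Δ) (hne : NonEl Θ)
    {k : ℕ} (hk : 2 ≤ k) (g : Fin k → SU n)
    (hg : Subgroup.closure (Set.range g) ⊔ Δ = Γ) :
    ∃ u w : Fin k → SU n, Function.Injective (FreeGroup.lift u) ∧
      Function.Injective (FreeGroup.lift w) ∧ (∀ i, u i ∈ Θ) ∧ (∀ i, w i = g i * u i) ∧
      (∀ i, w i ∈ Γ) ∧ Subgroup.closure (Set.range w) ⊔ Δ = Γ := by
  obtain ⟨h, hh, vp, vm, a, b, hp0, hm0, np, nm, hp, hm, hab, ip, im⟩ := hne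
  have hb : b ≠ 0 := by
    rintro rfl
    rw [zero_smul] at hm
    exact ap_ne h hm0 hm
  obtain ⟨s, hsΘ, s1, -, -, -⟩ := sel Θ vm im k (fun _ => 1) ∅ Set.finite_empty
  obtain ⟨t, htΘ, t1, t2, t3, t4⟩ := sel Θ vp ip k g
    (Set.range fun j => Ln (ap (s j) vm)) (Set.finite_range _)
  have p1 := pp hk h vp vm a b hp hm hab hb hp0 hm0 np nm t s t1 s1
    (fun i j e => t2 i ⟨j, e.symm⟩)
  have p2 := pp hk h vp vm a b hp hm hab hb hp0 hm0 np nm (fun i => g i * t i) s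
    (fun i j hij => by rw [ap_mul, ap_mul]; exact t3 i j hij) s1
    (fun i j e => t4 i ⟨j, by rw [← ap_mul]; exact e.symm⟩)
  obtain ⟨M, m1, m2⟩ := (p1.and p2).exists
  have hgΓ : ∀ i, g i ∈ Γ := fun i => by
    rw [← hg]; exact Subgroup.mem_sup_left (Subgroup.subset_closure ⟨i, rfl⟩)
  have hx : ∀ i, t i * h ^ M * (s i)⁻¹ ∈ Θ := fun i =>
    Θ.mul_mem (Θ.mul_mem (htΘ i) (Θ.pow_mem hh M)) (Θ.inv_mem (hsΘ i))
  have hw : ∀ i, g i * t i * h ^ M * (s i)⁻¹ = g i * (t i * h ^ M * (s i)⁻¹) := fun i => by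
    group
  refine ⟨_, fun i => g i * t i * h ^ M * (s i)⁻¹, m1, m2, hx, hw, ?_, le_antisymm ?_ ?_⟩
  · intro i
    simp only [hw]
    exact Γ.mul_mem (hgΓ i) (hΔ (hΘ (hx i)))
  · refine sup_le ?_ hΔ
    rw [Subgroup.closure_le]
    rintro _ ⟨i, rfl⟩
    simp only [hw]
    exact Γ.mul_mem (hgΓ i) (hΔ (hΘ (hx i)))
  · rw [← hg]
    refine sup_le ?_ le_sup_right
    rw [Subgroup.closure_le]
    rintro _ ⟨i, rfl⟩
    have e : g i = (g i * t i * h ^ M * (s i)⁻¹) * (t i * h ^ M * (s i)⁻¹)⁻¹ := by group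
    rw [SetLike.mem_coe, e]
    exact Subgroup.mul_mem _ (Subgroup.mem_sup_left (Subgroup.subset_closure ⟨i, rfl⟩))
      (Subgroup.inv_mem _ (Subgroup.mem_sup_right (hΘ (hx i))))

/-- a tuple with `m` trivial entries at the start and the elements of `T` -/
theorem exists_tuple' (T : Finset (SU n)) (m k : ℕ) (hk : m + T.card ≤ k) :
    ∃ g : Fin k → SU n, (∀ i : Fin k, (i : ℕ) < m → g i = 1) ∧
      Subgroup.closure (Set.range g) = Subgroup.closure (T : Set (SU n)) := by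
  classical
  let e := T.equivFin.symm
  refine ⟨fun i => if h : m ≤ (i : ℕ) ∧ (i : ℕ) - m < T.card then (e ⟨i - m, h.2⟩ : SU n) else 1,
    ?_, ?_⟩
  · intro i hi
    have h0 : ¬ (m ≤ (i : ℕ) ∧ (i : ℕ) - m < T.card) := fun h => by omega
    exact dif_neg h0
  · apply le_antisymm
    · rw [Subgroup.closure_le]
      rintro _ ⟨i, rfl⟩
      by_cases h : m ≤ (i : ℕ) ∧ (i : ℕ) - m < T.card
      · simp only [h, and_self, dite_true]
        exact Subgroup.subset_closure (e ⟨i - m, h.2⟩).2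
      · simp only [h, dite_false]
        exact Subgroup.one_mem _
    · refine Subgroup.closure_mono ?_
      intro x hx
      have hlt : (T.equivFin ⟨x, hx⟩ : ℕ) < T.card := Fin.is_lt _
      refine ⟨⟨m + (T.equivFin ⟨x, hx⟩ : ℕ), by omega⟩, ?_⟩
      have h : m ≤ m + (T.equivFin ⟨x, hx⟩ : ℕ) ∧ m + (T.equivFin ⟨x, hx⟩ : ℕ) - m < T.card :=
        ⟨by omega, by omega⟩
      simp only [h, and_self, dite_true]
      simp [e]

/-- a finite index subgroup of `SL(2, ℤ)` which is free of rank `k` -/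
def FreeSL2 (k : ℕ) (Φ : Subgroup (SpecialLinearGroup (Fin 2) ℤ)) : Prop :=
  Φ.FiniteIndex ∧ Nonempty (FreeGroup (Fin k) ≃* Φ)

theorem exists_freeSL2 {k : ℕ} (hk : 2 ≤ k) :
    ∃ Φ : Subgroup (SpecialLinearGroup (Fin 2) ℤ), FreeSL2 k Φ := by
  obtain ⟨k', rfl⟩ : ∃ k', k = k' + 1 := ⟨k - 1, by omega⟩
  have hk' : 1 ≤ k' := by omega
  exact ⟨SL2.D k', SL2.D_index k' hk', ⟨SL2.equiv k' hk'⟩⟩

/-- `Γ` is the image of the amalgam of `A` and `B` over `C` under a homomorphism which is injective on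
`A` and on `B`. -/
def Hybrid (A B C Γ : Type) [Group A] [Group B] [Group C] [Group Γ] : Prop :=
  ∃ (ι₁ : C →* A) (ι₂ : C →* B) (ρ : Monoid.Coprod A B →* Γ),
    Function.Injective ι₁ ∧ Function.Injective ι₂ ∧
    (∀ x, ρ (Monoid.Coprod.inl (ι₁ x)) = ρ (Monoid.Coprod.inr (ι₂ x))) ∧ Function.Surjective ρ ∧
    Function.Injective (ρ.comp Monoid.Coprod.inl) ∧ Function.Injective (ρ.comp Monoid.Coprod.inr)

/-- The amalgam with a given factor. -/
theorem main (Γ Δ Θ : Subgroup (SU n)) (hΔ : Δ ≤ Γ) (hΘ : Θ ≤ Δ) (hne : NonEl Θ)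
    (T : Finset (SU n)) (hT : Subgroup.closure (T : Set (SU n)) ⊔ Δ = Γ) (m k : ℕ) (hk2 : 2 ≤ k)
    (hk : m + T.card ≤ k)
    (Φ₃ Φ₂ : Subgroup (SpecialLinearGroup (Fin 2) ℤ)) (h3 : FreeSL2 m Φ₃) (h2 : FreeSL2 k Φ₂) :
      ∃ (ι₁ : Φ₃ →* Δ) (ι₂ : Φ₃ →* Φ₂) (ρ : Monoid.Coprod Δ Φ₂ →* Γ),
        Function.Injective ι₁ ∧ Function.Injective ι₂ ∧
        (∀ x, ρ (Monoid.Coprod.inl (ι₁ x)) = ρ (Monoid.Coprod.inr (ι₂ x))) ∧
        Function.Surjective ρ ∧ (∀ x : Δ, (ρ (Monoid.Coprod.inl x) : SU n) = x) ∧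
        Function.Injective (ρ.comp Monoid.Coprod.inr) ∧ (∀ x, (ι₁ x : SU n) ∈ Θ) := by
  obtain ⟨g, hg1, hg⟩ := exists_tuple' T m k hk
  have hmk : m ≤ k := by omega
  rw [← hg] at hT
  obtain ⟨u, w, -, w1, u3, hwu, w2, w4⟩ := free_gen Γ Δ Θ hΔ hΘ hne hk2 g hT
  have w3 : ∀ i : Fin k, (i : ℕ) < m → w i ∈ Θ := fun i hi => by
    rw [hwu, hg1 i hi, one_mul]; exact u3 i
  obtain ⟨E3⟩ := h3.2
  obtain ⟨E2⟩ := h2.2
  set R : FreeGroup (Fin k) →* SU n := FreeGroup.lift w with hR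
  have r1 : ∀ x, R x ∈ Γ := by
    have : R.range ≤ Γ := by
      rw [hR, FreeGroup.range_lift_eq_closure, Subgroup.closure_le]
      rintro _ ⟨i, rfl⟩
      exact w2 i
    exact fun x => this ⟨x, rfl⟩
  let c : FreeGroup (Fin m) →* FreeGroup (Fin k) := FreeGroup.map (Fin.castLE hmk)
  have hc : Function.Injective c := FreeGroup.map_injective (Fin.castLE_injective hmk)
  have r3 : ∀ x, R (c x) ∈ Θ := by
    have : (R.comp c).range ≤ Θ := by
      have e : R.comp c = FreeGroup.lift fun i : Fin m => w (Fin.castLE hmk i) := by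
        refine FreeGroup.ext_hom _ _ fun i => ?_
        change R (FreeGroup.map (Fin.castLE hmk) (FreeGroup.of i)) = _
        rw [FreeGroup.map.of, hR, FreeGroup.lift_apply_of, FreeGroup.lift_apply_of]
      rw [e, FreeGroup.range_lift_eq_closure, Subgroup.closure_le]
      rintro _ ⟨i, rfl⟩
      exact w3 _ (by simp)
    exact fun x => this ⟨x, rfl⟩
  let ι₁ : Φ₃ →* Δ := ((R.comp c).codRestrict Δ fun x => hΘ (r3 x)).comp E3.symm.toMonoidHom
  let ι₂ : Φ₃ →* Φ₂ := (E2.toMonoidHom.comp c).comp E3.symm.toMonoidHom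
  let ρ₂ : Φ₂ →* Γ := (R.codRestrict Γ r1).comp E2.symm.toMonoidHom
  refine ⟨ι₁, ι₂, Monoid.Coprod.lift (Subgroup.inclusion hΔ) ρ₂, ?_, ?_, ?_, ?_, ?_, ?_, ?_⟩
  · intro x y hxy
    exact E3.symm.injective (hc (w1 (congrArg Subtype.val hxy)))
  · intro x y hxy
    exact E3.symm.injective (hc (E2.injective hxy))
  · intro x
    rw [Monoid.Coprod.lift_apply_inl, Monoid.Coprod.lift_apply_inr]
    apply Subtype.ext
    change R (c (E3.symm x)) = R (E2.symm (E2 (c (E3.symm x))))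
    rw [MulEquiv.symm_apply_apply]
  · rw [← MonoidHom.range_eq_top, Monoid.Coprod.range_lift]
    apply Subgroup.map_injective Γ.subtype_injective
    rw [Subgroup.map_sup]
    have h1 : (Subgroup.inclusion hΔ).range.map Γ.subtype = Δ := by
      ext x
      constructor
      · rintro ⟨_, ⟨y, rfl⟩, rfl⟩
        exact y.2
      · intro hx
        exact ⟨_, ⟨⟨x, hx⟩, rfl⟩, rfl⟩
    have h2' : ρ₂.range.map Γ.subtype = R.range := by
      ext x
      constructor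
      · rintro ⟨_, ⟨y, rfl⟩, rfl⟩
        exact ⟨E2.symm y, rfl⟩
      · rintro ⟨y, rfl⟩
        exact ⟨_, ⟨E2 y, rfl⟩, by simp [ρ₂]⟩
    rw [h1, h2', hR, FreeGroup.range_lift_eq_closure, sup_comm, w4, ← MonoidHom.range_eq_map,
      Subgroup.range_subtype]
  · intro x
    rw [Monoid.Coprod.lift_apply_inl]
    rfl
  · rw [Monoid.Coprod.lift_comp_inr]
    intro x y hxy
    exact E2.symm.injective (w1 (congrArg Subtype.val hxy))
  · intro x
    exact r3 _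

/-- The amalgam of two free groups. -/
theorem main_free (Γ : Subgroup (SU n)) (hne : NonEl Γ)
    (T : Finset (SU n)) (hT : Subgroup.closure (T : Set (SU n)) = Γ) (m k : ℕ) (hk2 : 2 ≤ k)
    (hk : m + T.card ≤ k) (Φ₃ Φ₁ Φ₂ : Subgroup (SpecialLinearGroup (Fin 2) ℤ))
    (h3 : FreeSL2 m Φ₃) (h1 : FreeSL2 k Φ₁) (h2 : FreeSL2 k Φ₂) : Hybrid Φ₁ Φ₂ Φ₃ Γ := by
  obtain ⟨g, hg1, hg⟩ := exists_tuple' T m k hk
  have hmk : m ≤ k := by omega
  rw [← hg] at hT
  obtain ⟨u, w, u1, w1, u3, hwu, w2, -⟩ := free_gen Γ Γ Γ le_rfl le_rfl hne hk2 g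
    (by rw [hT, sup_idem])
  obtain ⟨E3⟩ := h3.2
  obtain ⟨E1⟩ := h1.2
  obtain ⟨E2⟩ := h2.2
  set R : FreeGroup (Fin k) →* SU n := FreeGroup.lift w with hR
  set Q : FreeGroup (Fin k) →* SU n := FreeGroup.lift u with hQ
  have r1 : ∀ x, R x ∈ Γ := by
    have : R.range ≤ Γ := by
      rw [hR, FreeGroup.range_lift_eq_closure, Subgroup.closure_le]
      rintro _ ⟨i, rfl⟩
      exact w2 i
    exact fun x => this ⟨x, rfl⟩
  have q1 : ∀ x, Q x ∈ Γ := by
    have : Q.range ≤ Γ := by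
      rw [hQ, FreeGroup.range_lift_eq_closure, Subgroup.closure_le]
      rintro _ ⟨i, rfl⟩
      exact u3 i
    exact fun x => this ⟨x, rfl⟩
  let c : FreeGroup (Fin m) →* FreeGroup (Fin k) := FreeGroup.map (Fin.castLE hmk)
  have hc : Function.Injective c := FreeGroup.map_injective (Fin.castLE_injective hmk)
  have hRQ : ∀ x, Q (c x) = R (c x) := by
    have e : Q.comp c = R.comp c := by
      refine FreeGroup.ext_hom _ _ fun i => ?_
      change Q (FreeGroup.map (Fin.castLE hmk) (FreeGroup.of i)) =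
        R (FreeGroup.map (Fin.castLE hmk) (FreeGroup.of i))
      rw [FreeGroup.map.of, hR, hQ, FreeGroup.lift_apply_of, FreeGroup.lift_apply_of, hwu,
        hg1 _ (by simp), one_mul]
    exact fun x => DFunLike.congr_fun e x
  let ρ₁ : Φ₁ →* Γ := (Q.codRestrict Γ q1).comp E1.symm.toMonoidHom
  let ρ₂ : Φ₂ →* Γ := (R.codRestrict Γ r1).comp E2.symm.toMonoidHom
  refine ⟨(E1.toMonoidHom.comp c).comp E3.symm.toMonoidHom,
    (E2.toMonoidHom.comp c).comp E3.symm.toMonoidHom, Monoid.Coprod.lift ρ₁ ρ₂,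
    ?_, ?_, ?_, ?_, ?_, ?_⟩
  · intro x y hxy
    exact E3.symm.injective (hc (E1.injective hxy))
  · intro x y hxy
    exact E3.symm.injective (hc (E2.injective hxy))
  · intro x
    rw [Monoid.Coprod.lift_apply_inl, Monoid.Coprod.lift_apply_inr]
    apply Subtype.ext
    change Q (E1.symm (E1 (c (E3.symm x)))) = R (E2.symm (E2 (c (E3.symm x))))
    rw [MulEquiv.symm_apply_apply, MulEquiv.symm_apply_apply, hRQ]
  · rw [← MonoidHom.range_eq_top, Monoid.Coprod.range_lift]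
    apply Subgroup.map_injective Γ.subtype_injective
    rw [Subgroup.map_sup]
    have e1 : ρ₁.range.map Γ.subtype = Q.range := by
      ext x
      constructor
      · rintro ⟨_, ⟨y, rfl⟩, rfl⟩
        exact ⟨E1.symm y, rfl⟩
      · rintro ⟨y, rfl⟩
        exact ⟨_, ⟨E1 y, rfl⟩, by simp [ρ₁]⟩
    have e2 : ρ₂.range.map Γ.subtype = R.range := by
      ext x
      constructor
      · rintro ⟨_, ⟨y, rfl⟩, rfl⟩
        exact ⟨E2.symm y, rfl⟩
      · rintro ⟨y, rfl⟩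
        exact ⟨_, ⟨E2 y, rfl⟩, by simp [ρ₂]⟩
    rw [e1, e2, ← MonoidHom.range_eq_map, Subgroup.range_subtype]
    refine le_antisymm (sup_le ?_ ?_) ?_
    · rintro _ ⟨x, rfl⟩; exact q1 x
    · rintro _ ⟨x, rfl⟩; exact r1 x
    · rw [← hT, Subgroup.closure_le]
      rintro _ ⟨i, rfl⟩
      have e : g i = w i * (u i)⁻¹ := by rw [hwu, mul_assoc, mul_inv_cancel, mul_one]
      rw [SetLike.mem_coe, e]
      refine Subgroup.mul_mem _ (Subgroup.mem_sup_right ⟨FreeGroup.of i, ?_⟩)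
        (Subgroup.inv_mem _ (Subgroup.mem_sup_left ⟨FreeGroup.of i, ?_⟩))
      · rw [hR, FreeGroup.lift_apply_of]
      · rw [hQ, FreeGroup.lift_apply_of]
  · rw [Monoid.Coprod.lift_comp_inl]
    intro x y hxy
    exact E1.symm.injective (u1 (congrArg Subtype.val hxy))
  · rw [Monoid.Coprod.lift_comp_inr]
    intro x y hxy
    exact E2.symm.injective (w1 (congrArg Subtype.val hxy))

/-- Free groups of all ranks embed in the free group of rank `2`. -/
theorem free_emb {m : ℕ} (hm : 2 ≤ m) :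
    ∃ f : FreeGroup (Fin m) →* FreeGroup (Fin 2), Function.Injective f := by
  obtain ⟨k, rfl⟩ : ∃ k, m = k + 1 := ⟨m - 1, by omega⟩
  have hk : 1 ≤ k := by omega
  have h1 : SL2.S ≤ SL2.D 1 := by
    unfold SL2.S
    rw [Subgroup.closure_le]
    rintro x (rfl | rfl)
    · exact SL2.gens_mem 1 0
    · have := SL2.conj_mem 1 0 (by omega)
      rwa [Nat.cast_zero, neg_zero, SL2.A_zero, one_mul, mul_one] at this
  have h2 : SL2.D k ≤ SL2.S := by
    unfold SL2.D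
    rw [FreeGroup.range_lift_eq_closure, Subgroup.closure_le]
    rintro _ ⟨i, rfl⟩
    refine Fin.cases ?_ (fun i => ?_) i
    · exact SL2.A_mem k
    · exact SL2.S.mul_mem (SL2.S.mul_mem (SL2.A_mem _) (SL2.B_mem _)) (SL2.A_mem _)
  refine ⟨(SL2.equiv 1 le_rfl).symm.toMonoidHom.comp
    ((Subgroup.inclusion (h2.trans h1)).comp (SL2.equiv k hk).toMonoidHom), ?_⟩
  intro x y hxy
  exact (SL2.equiv k hk).injective (Subgroup.inclusion_injective (h2.trans h1)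
    ((SL2.equiv 1 le_rfl).symm.injective hxy))

/-- A non-elementary group contains a free group of rank `2`. -/
theorem nonEl_free (Θ : Subgroup (SU n)) (hne : NonEl Θ) :
    ∃ f : FreeGroup (Fin 2) →* Θ, Function.Injective f := by
  obtain ⟨u, -, u1, -, u3, -, -, -⟩ := free_gen Θ Θ Θ le_rfl le_rfl hne (le_refl 2)
    (fun _ => 1) (by
      rw [sup_eq_right, Subgroup.closure_le]
      rintro _ ⟨i, rfl⟩
      exact Subgroup.one_mem _)
  have q1 : ∀ x, FreeGroup.lift u x ∈ Θ := by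
    have : (FreeGroup.lift u).range ≤ Θ := by
      rw [FreeGroup.range_lift_eq_closure, Subgroup.closure_le]
      rintro _ ⟨i, rfl⟩
      exact u3 i
    exact fun x => this ⟨x, rfl⟩
  exact ⟨(FreeGroup.lift u).codRestrict Θ q1, fun x y hxy => u1 (congrArg Subtype.val hxy)⟩

/-- `Γ` is generated by two subgroups isomorphic to `A` and `B` whose intersection contains a free
group of rank `2`. -/
def FreeMeet (A B Γ : Type) [Group A] [Group B] [Group Γ] : Prop :=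
  ∃ (α : A →* Γ) (β : B →* Γ) (f : FreeGroup (Fin 2) →* Γ), Function.Injective α ∧
    Function.Injective β ∧ Function.Injective f ∧ α.range ⊔ β.range = ⊤ ∧
    ∀ x, f x ∈ α.range ∧ f x ∈ β.range

theorem meet_of_hybrid {A B C Γ : Type} [Group A] [Group B] [Group C] [Group Γ]
    (h : Hybrid A B C Γ) (e : FreeGroup (Fin 2) →* C) (he : Function.Injective e) :
    FreeMeet A B Γ := by
  obtain ⟨ι₁, ι₂, ρ, h1, h2, h3, h4, h5, h6⟩ := h
  refine ⟨ρ.comp Monoid.Coprod.inl, ρ.comp Monoid.Coprod.inr,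
    (ρ.comp Monoid.Coprod.inl).comp (ι₁.comp e), h5, h6, fun x y hxy => he (h1 (h5 hxy)), ?_, ?_⟩
  · rw [← Monoid.Coprod.range_eq, MonoidHom.range_eq_top]
    exact h4
  · intro x
    refine ⟨⟨ι₁ (e x), rfl⟩, ⟨ι₂ (e x), ?_⟩⟩
    exact (h3 (e x)).symm

theorem hybrid_of_meet {A B Γ : Type} [Group A] [Group B] [Group Γ] (h : FreeMeet A B Γ) {m : ℕ}
    (hm : 2 ≤ m) (Φ₃ : Subgroup (SpecialLinearGroup (Fin 2) ℤ)) (h3 : FreeSL2 m Φ₃) :
    Hybrid A B Φ₃ Γ := by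
  obtain ⟨α, β, f, hα, hβ, hf, hg, hx⟩ := h
  obtain ⟨E3⟩ := h3.2
  obtain ⟨e, he⟩ := free_emb hm
  have key : ∀ (D : Type) [Group D] (δ : D →* Γ), Function.Injective δ → (∀ x, f x ∈ δ.range) →
      ∃ ι : Φ₃ →* D, Function.Injective ι ∧ ∀ x, δ (ι x) = f (e (E3.symm x)) := by
    intro D _ δ hδ hr
    refine ⟨(MonoidHom.ofInjective hδ).symm.toMonoidHom.comp
      ((f.codRestrict δ.range hr).comp (e.comp E3.symm.toMonoidHom)), ?_, ?_⟩
    · intro x y hxy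
      exact E3.symm.injective (he (hf (congrArg Subtype.val
        ((MonoidHom.ofInjective hδ).symm.injective hxy))))
    · intro x
      exact MonoidHom.apply_ofInjective_symm hδ ⟨f (e (E3.symm x)), hr _⟩
  obtain ⟨ι₁, i1, e1⟩ := key A α hα fun x => (hx x).1
  obtain ⟨ι₂, i2, e2⟩ := key B β hβ fun x => (hx x).2
  refine ⟨ι₁, ι₂, Monoid.Coprod.lift α β, i1, i2, ?_, ?_, ?_, ?_⟩
  · intro x
    rw [Monoid.Coprod.lift_apply_inl, Monoid.Coprod.lift_apply_inr, e1, e2]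
  · rw [← MonoidHom.range_eq_top, Monoid.Coprod.range_lift, hg]
  · rw [Monoid.Coprod.lift_comp_inl]; exact hα
  · rw [Monoid.Coprod.lift_comp_inr]; exact hβ

theorem free_emb_Φ {m : ℕ} (hm : 2 ≤ m) (Φ₃ : Subgroup (SpecialLinearGroup (Fin 2) ℤ))
    (h3 : FreeSL2 m Φ₃) : ∃ f : FreeGroup (Fin 2) →* Φ₃, Function.Injective f := by
  obtain ⟨E3⟩ := h3.2
  refine ⟨E3.toMonoidHom.comp (FreeGroup.map (Fin.castLE hm)), fun x y hxy => ?_⟩
  exact FreeGroup.map_injective (Fin.castLE_injective hm) (E3.injective hxy)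

end Pool.Agent.J4.H51.OS
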